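import Pool.Agent.Q15.S7IMain

/-!
# The interval between the varieties of `S_7` and `S_7^0` has the cardinality of the continuum

The definitions `Term`, `Term.eval` and `Holds` are in `Pool/Agent/Q15/B2Defs.lean`, `S7` and `S70`
in `Pool/Agent/Q15/S70Defs.lean`, `AlgClass`, `IsVariety`, `gen` and `Interval` in
`Pool/Agent/Q15/S7IMain.lean`.
-/

set_option autoImplicit false

namespace Pool.Agent.Results.MP_9c5c66_al.IntervalContinuum

open Pool.Agent.Q15.S7I

/-- There are exactly `2 ^ ℵ₀` varieties of `(+, ·)`-algebras between the variety generated by `S_7`
and the variety generated by `S_7^0`. -/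
theorem result : Cardinal.mk Interval = Cardinal.continuum := card_interval

end Pool.Agent.Results.MP_9c5c66_al.IntervalContinuum
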